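import Pool.Agent.R544.EN.Main

/-!
# Recognising even-nearly conservative arc weights is coNP-complete

The reduction is from the Hamiltonian cycle problem for undirected graphs with `n ≥ 3` vertices.
Fix a vertex `s`. Each edge gives two arcs; an arc `(u, v)` with `u ≠ s` is subdivided, its first
half gets the weight `-2` and its second half the weight `0`; an arc `(s, v)` gets the weight
`2 n - 3`. So a cycle has an odd number of arcs iff it passes through `s`, and it is then negative
iff it visits all vertices. Adding all opposite arcs with the weight `2 n` makes the digraph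
symmetric and creates no new negative cycle with an odd number of arcs.
-/

namespace Pool.Agent.Results.MP_d994ca_lc.EvenNearlyConservativeHard

open Pool.Agent.NPC Pool.Agent.R544.EN

/-- Recognising even-nearly conservative arc weights is `coNP`-complete. It is `coNP`-hard already
for symmetric digraphs with integral weights of absolute value at most twice the number of
vertices; if a polynomial-time function decides it for these digraphs, then `P = NP`. -/
theorem result :
    (InCoNPP EvenNearlyConservative ∧ CoNPHardP EvenNearlyConservative) ∧
    CoNPHardP (fun I : Inst => IsSymmetric I ∧ SmallIntegers I ∧ EvenNearlyConservative I) ∧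
    ((∃ V : List Bool → List Bool, PolyTime V ∧ ∀ I : Inst,
        IsDigraph I → IsSymmetric I → SmallIntegers I →
          (EvenNearlyConservative I ↔ V (bits I) = [true])) →
      ∀ L : Set (List Bool), InNP L → InP L) := by
  refine ⟨⟨inCoNPP_en, hardPr_not.toCoNPHardP⟩, hardPr_not'.toCoNPHardP, ?_⟩
  rintro ⟨V, hV, hV'⟩ L hL
  obtain ⟨g, hg, hgp, hgL⟩ := hardPr_not L hL
  have h1 : PolyTime (fun x => V (bits (g x))) :=
    H642R2.TMSim.polyTime_comp (g := V) (f := fun x => bits (g x)) hV (PC.toPolyTime hg)
  refine ⟨fun x => [!(decide (V (bits (g x)) = [true]))], ?_, fun x => ?_⟩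
  · exact polyTime_test (g := fun y => !(decide (y = [true]))) h1
      (NPC.Poly.not (Poly.decide_eq Poly.id (NPC.Poly.const _)))
  · have h2 := hV' _ (hgp x).1 (hgp x).2.1 (hgp x).2.2
    have h3 := hgL x
    simp only at h3
    rw [h3, h2]
    simp

end Pool.Agent.Results.MP_d994ca_lc.EvenNearlyConservativeHard
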